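import Pool.Agent.P.MP_56bcbf_an.Koebe
import Pool.Agent.P.MP_56bcbf_an.Kernel

/-! Propagation of smallness from a set of positive area. -/

namespace Pool.Agent.P.MP_56bcbf_an.C

open Set Metric Filter Topology Complex Real MeasureTheory
open scoped ENNReal ComplexConjugate

theorem sq_sub (a w : ℂ) :
    ‖1 - conj a * w‖ ^ 2 - ‖w - a‖ ^ 2 = (1 - ‖a‖ ^ 2) * (1 - ‖w‖ ^ 2) := by
  simp only [Complex.sq_norm, normSq_apply, sub_re, sub_im, mul_re, mul_im, conj_re, conj_im,
    one_re, one_im]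
  ring

theorem den_ge {a w : ℂ} (ha : ‖a‖ < 1) : 1 - ‖w‖ ≤ ‖1 - conj a * w‖ := by
  have := norm_sub_norm_le 1 (conj a * w)
  rw [norm_one, norm_mul, RCLike.norm_conj] at this
  nlinarith [norm_nonneg w]

theorem factor {a w : ℂ} (ha : ‖a‖ < 1) (ha0 : a ≠ 0) (hw : ‖w‖ ≤ 1 / 2) (hwa : w ≠ a) :
    Real.log ‖1 - conj a * w‖ - Real.log ‖w - a‖ ≤
      -Real.log ‖a‖ * 11 + -Real.log ‖a‖ * 4 * max 0 (-Real.log ‖w - a‖) := by
  have u1 := den_ge (w := w) ha
  have u2 : ‖1 - conj a * w‖ ≤ 3 / 2 := by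
    have := norm_sub_le 1 (conj a * w)
    rw [norm_one, norm_mul, RCLike.norm_conj] at this
    nlinarith [norm_nonneg w]
  have v0 : 0 < ‖w - a‖ := norm_pos_iff.2 (sub_ne_zero.2 hwa)
  have e := sq_sub a w
  have l1 := Real.log_le_sub_one_of_pos (norm_pos_iff.2 ha0)
  have m0 := le_max_left 0 (-Real.log ‖w - a‖)
  have m1 := le_max_right 0 (-Real.log ‖w - a‖)
  have a0 := norm_nonneg a
  generalize max 0 (-Real.log ‖w - a‖) = m at *
  rcases le_total ‖a‖ (3 / 4) with k | k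
  · have := Real.log_le_sub_one_of_pos (show 0 < ‖1 - conj a * w‖ by linarith)
    nlinarith
  · have v1 : 1 / 4 ≤ ‖w - a‖ := by
      have := norm_sub_norm_le a w
      rw [norm_sub_rev] at this
      linarith
    rw [← Real.log_div (by linarith) v0.ne']
    have h1 := Real.log_le_sub_one_of_pos (div_pos (show 0 < ‖1 - conj a * w‖ by linarith) v0)
    have h2 : ‖1 - conj a * w‖ / ‖w - a‖ - 1 ≤ 11 * (1 - ‖a‖) := by
      have h3 : (1 - ‖a‖ ^ 2) * (1 - ‖w‖ ^ 2) ≤ 2 * (1 - ‖a‖) := by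
        nlinarith [mul_nonneg (show 0 ≤ 1 - ‖a‖ ^ 2 by nlinarith) (sq_nonneg ‖w‖)]
      generalize ‖1 - conj a * w‖ = u at *
      generalize ‖w - a‖ = v at *
      have h4 : u - v ≤ 8 / 3 * (1 - ‖a‖) := by
        by_contra! h
        nlinarith
      rw [sub_le_iff_le_add, div_le_iff₀ v0]
      nlinarith
    nlinarith [mul_nonneg (show 0 ≤ -Real.log ‖a‖ by linarith) m0]

theorem base {Q : ℂ → ℂ} (hQ : Differentiable ℂ Q) (h0 : ∀ u ∈ ball (0 : ℂ) 1, Q u ≠ 0) {Y : ℝ}
    (hY : ∀ x ∈ sphere (0 : ℂ) 1, 2 * ‖Q x‖ ≤ Y) :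
    0 < Real.log Y - Real.log ‖Q 0‖ ∧ ∀ w : ℂ, ‖w‖ ≤ 1 / 2 →
      Real.log Y - Real.log ‖Q w‖ ≤ 3 * (Real.log Y - Real.log ‖Q 0‖) := by
  have h1 : ∀ u ∈ ball (0 : ℂ) 1, Real.log ‖Q u‖ < Real.log Y := fun u hu => by
    have := Complex.norm_le_of_forall_mem_frontier_norm_le (C := Y / 2) isBounded_ball
      hQ.diffContOnCl (fun x hx => by
        rw [frontier_ball _ one_ne_zero] at hx
        linarith [hY x hx]) (subset_closure hu)
    have h2 := norm_pos_iff.2 (h0 u hu)
    exact Real.log_lt_log h2 (by linarith)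
  have T0 := sub_pos.2 (h1 0 (by simp))
  refine ⟨T0, fun w hw => ?_⟩
  obtain ⟨L, hL, hLe⟩ := exists_log hQ.differentiableOn h0
  have e : ∀ u ∈ ball (0 : ℂ) 1, (L u).re = Real.log ‖Q u‖ := fun u hu => by
    rw [← hLe u hu, norm_exp, Real.log_exp]
  have hw1 : w ∈ ball (0 : ℂ) 1 := mem_ball_zero_iff.2 (by linarith)
  have h2 := Complex.borelCaratheodory_zero (f := fun u => L u - L 0) T0
    (fun u hu => ((hL u hu).differentiableAt.sub_const _).differentiableWithinAt)
    (fun u hu => by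
      simp only [mem_ofPred_eq, sub_re, e u hu, e 0 (by simp)]
      linarith [h1 u hu]) one_pos hw1 (by simp)
  have h3 := (abs_le.1 ((abs_re_le_norm _).trans h2)).1
  rw [sub_re, e w hw1, e 0 (by simp)] at h3
  have h4 : 2 * (Real.log Y - Real.log ‖Q 0‖) * ‖w‖ / (1 - ‖w‖) ≤
      2 * (Real.log Y - Real.log ‖Q 0‖) := by
    rw [div_le_iff₀ (by linarith)]
    nlinarith
  linarith

theorem remez_aux {μ : Measure ℂ} {s : ℂ → ℂ} (hs : Measurable s) (h1 : ∀ᵐ w ∂μ, ‖s w‖ ≤ 1 / 2)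
    (h2 : ∀ a, ∀ᵐ w ∂μ, s w ≠ a) {m L : ℝ} (hm : μ univ = ENNReal.ofReal m) (m0 : 0 ≤ m)
    (L0 : 0 ≤ L) (h3 : ∀ a : ℂ, ‖a‖ < 1 →
      ∫⁻ w, ENNReal.ofReal (-Real.log ‖s w - a‖) ∂μ ≤ ENNReal.ofReal (L * m))
    {Y : ℝ} (l : Multiset ℂ) : ∀ Q : ℂ → ℂ, Differentiable ℂ Q → (∀ u ∈ ball (0 : ℂ) 1, Q u ≠ 0) →
      0 ∉ l → (∀ x ∈ sphere (0 : ℂ) 1, 2 * ‖(l.map (x - ·)).prod * Q x‖ ≤ Y) →
      0 ≤ Real.log Y - Real.log ‖(l.map (0 - ·)).prod * Q 0‖ ∧
      ∫⁻ w, ENNReal.ofReal (Real.log Y - Real.log ‖(l.map (s w - ·)).prod * Q (s w)‖) ∂μ ≤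
        ENNReal.ofReal ((11 + 4 * L) *
          (Real.log Y - Real.log ‖(l.map (0 - ·)).prod * Q 0‖) * m) := by
  induction l using Multiset.induction_on with
  | empty =>
    intro Q hQ h0 _ hY
    simp only [Multiset.map_zero, Multiset.prod_zero, one_mul] at hY ⊢
    obtain ⟨a1, a2⟩ := base hQ h0 hY
    refine ⟨a1.le, (lintegral_mono_ae (g := fun _ => ENNReal.ofReal ((11 + 4 * L) *
      (Real.log Y - Real.log ‖Q 0‖))) ?_).trans_eq ?_⟩
    · filter_upwards [h1] with w hw
      exact ENNReal.ofReal_le_ofReal ((a2 _ hw).trans (by nlinarith))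
    · rw [lintegral_const, hm, ← ENNReal.ofReal_mul (by positivity)]
  | cons a l ih =>
    intro Q hQ h0 hl hY
    simp only [Multiset.map_cons, Multiset.prod_cons, Multiset.mem_cons, not_or] at hY hl ⊢
    rcases le_or_gt 1 ‖a‖ with k | k
    · have := ih (fun u => (u - a) * Q u) (by fun_prop) (fun u hu => mul_ne_zero
        (sub_ne_zero.2 fun e => (mem_ball_zero_iff.1 hu).not_ge (e ▸ k)) (h0 u hu)) hl.2
        (fun x hx => by rw [mul_left_comm, ← mul_assoc]; exact hY x hx)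
      simpa only [mul_left_comm _ (_ - a), ← mul_assoc] using this
    set G : ℂ → ℂ := fun u => (l.map (u - ·)).prod * Q u with hG
    have hGm : Measurable G := by
      refine Measurable.mul (Continuous.measurable ?_) hQ.continuous.measurable
      exact continuous_multiset_prod _ fun b _ => by fun_prop
    have hG0 : ∀ u ∈ ball (0 : ℂ) 1, u ∉ l → G u ≠ 0 := fun u hu h =>
      mul_ne_zero (Multiset.prod_ne_zero fun e => by
        obtain ⟨b, hb, e⟩ := Multiset.mem_map.1 e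
        exact h (sub_eq_zero.1 e ▸ hb)) (h0 u hu)
    have hd : ∀ u ∈ ball (0 : ℂ) 1, 1 - conj a * u ≠ 0 := fun u hu =>
      norm_pos_iff.1 ((sub_pos.2 (mem_ball_zero_iff.1 hu)).trans_le (den_ge k))
    have e : ∀ u, (l.map (u - ·)).prod * ((1 - conj a * u) * Q u) = (1 - conj a * u) * G u :=
      fun u => mul_left_comm _ _ _
    obtain ⟨a1, a2⟩ := ih (fun u => (1 - conj a * u) * Q u) (by fun_prop)
      (fun u hu => mul_ne_zero (hd u hu) (h0 u hu)) hl.2 (fun x hx => by
        have h4 := sq_sub a x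
        rw [mem_sphere_zero_iff_norm.1 hx, one_pow, sub_self, mul_zero, sub_eq_zero,
          sq_eq_sq₀ (norm_nonneg _) (norm_nonneg _)] at h4
        rw [e, norm_mul, h4, ← norm_mul, ← mul_assoc]
        exact hY x hx)
    simp only [e] at a1 a2
    simp only [mul_assoc (_ - a)]
    change 0 ≤ Real.log Y - Real.log ‖(0 - a) * G 0‖ ∧ ∫⁻ w, ENNReal.ofReal
      (Real.log Y - Real.log ‖(s w - a) * G (s w)‖) ∂μ ≤ ENNReal.ofReal ((11 + 4 * L) *
        (Real.log Y - Real.log ‖(0 - a) * G 0‖) * m)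
    have ha0 : a ≠ 0 := Ne.symm hl.1
    have la : 0 ≤ -Real.log ‖a‖ := neg_nonneg.2 (Real.log_nonpos (norm_nonneg _) k.le)
    rw [mul_zero, sub_zero, one_mul] at a1 a2
    rw [norm_mul, zero_sub, norm_neg, Real.log_mul (norm_ne_zero_iff.2 ha0)
      (norm_ne_zero_iff.2 (hG0 0 (by simp) hl.2))]
    refine ⟨by linarith, ?_⟩
    have h5 : ∀ᵐ w ∂μ, ∀ b ∈ l, s w ≠ b :=
      (ae_ball_iff l.finite_toSet.countable).2 fun b _ => h2 b
    calc _ ≤ ∫⁻ w, (ENNReal.ofReal (Real.log Y - Real.log ‖(1 - conj a * s w) * G (s w)‖) +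
          ENNReal.ofReal (-Real.log ‖a‖ * 11) + ENNReal.ofReal (-Real.log ‖a‖ * 4) *
            ENNReal.ofReal (-Real.log ‖s w - a‖)) ∂μ := by
          refine lintegral_mono_ae ?_
          filter_upwards [h1, h2 a, h5] with w b1 b2 b3
          have b4 : s w ∈ ball (0 : ℂ) 1 := mem_ball_zero_iff.2 (by linarith)
          have b5 := norm_ne_zero_iff.2 (hG0 _ b4 fun h => b3 _ h rfl)
          have b6 := factor k ha0 b1 b2
          have b7 : ENNReal.ofReal (-Real.log ‖s w - a‖) =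
              ENNReal.ofReal (max 0 (-Real.log ‖s w - a‖)) := by simp [ENNReal.ofReal_max]
          rw [b7, ← ENNReal.ofReal_mul (by positivity), norm_mul _ (G _), norm_mul _ (G _),
            Real.log_mul (norm_ne_zero_iff.2 (sub_ne_zero.2 b2)) b5,
            Real.log_mul (norm_ne_zero_iff.2 (hd _ b4)) b5]
          refine le_trans ?_ (add_le_add_left ENNReal.ofReal_add_le _)
          exact le_trans (ENNReal.ofReal_le_ofReal (by linarith)) ENNReal.ofReal_add_le
      _ ≤ ENNReal.ofReal ((11 + 4 * L) * (Real.log Y - Real.log ‖G 0‖) * m) +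
          ENNReal.ofReal (-Real.log ‖a‖ * 11) * ENNReal.ofReal m +
          ENNReal.ofReal (-Real.log ‖a‖ * 4) * ENNReal.ofReal (L * m) := by
          rw [lintegral_add_right _ (by fun_prop), lintegral_add_right _ measurable_const,
            lintegral_const, hm, lintegral_const_mul _ (by fun_prop)]
          gcongr
          exact h3 a k
      _ = _ := by
          rw [← ENNReal.ofReal_mul (by positivity), ← ENNReal.ofReal_mul (by positivity),
            ← ENNReal.ofReal_add (by positivity) (by positivity),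
            ← ENNReal.ofReal_add (by positivity) (by positivity)]
          congr 1
          ring

theorem potential {z : ℂ} {r : ℝ} (hr : 0 < r) {A : Set ℂ}
    (hAr : A ⊆ ball z r) {m t : ℝ} (hm : volume A = ENNReal.ofReal m) (t0 : 0 < t) (t1 : t ≤ 1)
    (htm : t * (2 * r) ^ 2 ≤ m) {a : ℂ} (ha : ‖a‖ < 1) :
    ∫⁻ w in A, ENNReal.ofReal (-Real.log ‖(w - z) / (2 * r : ℝ) - a‖) ≤
      ENNReal.ofReal ((-Real.log t + 4 * π) * m) := by
  have lt : 0 ≤ -Real.log t := neg_nonneg.2 (Real.log_nonpos t0.le t1)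
  have m0 : 0 ≤ m := le_trans (by positivity) htm
  set b : ℂ := z + (2 * r : ℝ) * a with hb
  have hR : ((2 * r : ℝ) : ℂ) ≠ 0 := ofReal_ne_zero.2 (by positivity)
  have e : ∀ w, ‖(w - z) / (2 * r : ℝ) - a‖ = ‖w - b‖ / (2 * r) := fun w => by
    rw [show (w - z) / (2 * r : ℝ) - a = (w - b) / (2 * r : ℝ) by rw [hb]; field_simp; ring,
      norm_div, norm_real, Real.norm_of_nonneg (by positivity)]
  have hs : A ⊆ ball b (4 * r) := fun w hw => by
    have h1 := mem_ball_iff_norm.1 (hAr hw)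
    have h2 := norm_sub_le (w - z) ((2 * r : ℝ) * a)
    rw [norm_mul, norm_real, Real.norm_of_nonneg (by positivity), sub_sub] at h2
    exact mem_ball_iff_norm.2 (by nlinarith)
  calc _ ≤ ∫⁻ w in A, (ENNReal.ofReal (-Real.log t) + ENNReal.ofReal (t * (2 * r)) *
          ENNReal.ofReal (‖w - b‖ ^ (-(1 : ℝ)))) := by
        refine lintegral_mono fun w => ?_
        rw [e, ← ENNReal.ofReal_mul (by positivity), Real.rpow_neg_one]
        refine le_trans (ENNReal.ofReal_le_ofReal ?_) ENNReal.ofReal_add_le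
        rcases (norm_nonneg (w - b)).eq_or_lt with k | k
        · simpa [← k] using lt
        have := Real.log_le_sub_one_of_pos (show 0 < t / (‖w - b‖ / (2 * r)) by positivity)
        rw [Real.log_div t0.ne' (by positivity), div_div_eq_mul_div, div_eq_mul_inv (t * _)] at this
        linarith
    _ ≤ ENNReal.ofReal (-Real.log t) * ENNReal.ofReal m + ENNReal.ofReal (t * (2 * r)) *
          ENNReal.ofReal (2 * π / (2 - 1) * (4 * r) ^ ((2 : ℝ) - 1)) := by
        rw [lintegral_add_left measurable_const, setLIntegral_const, hm,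
          lintegral_const_mul _ (by fun_prop), ← lintegral_pow_kernel one_lt_two (by positivity) b]
        gcongr
    _ ≤ _ := by
        rw [← ENNReal.ofReal_mul lt, ← ENNReal.ofReal_mul (by positivity),
          ← ENNReal.ofReal_add (by positivity) (by positivity)]
        refine ENNReal.ofReal_le_ofReal ?_
        rw [show (2 : ℝ) - 1 = 1 by norm_num, Real.rpow_one]
        nlinarith [mul_le_mul_of_nonneg_left htm pi_pos.le]

theorem remez (P : Polynomial ℂ) {z : ℂ} {r : ℝ} (hr : 0 < r) {A : Set ℂ} (hA : MeasurableSet A)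
    (hAr : A ⊆ ball z r) {m t ε Y : ℝ} (hm : volume A = ENNReal.ofReal m) (t0 : 0 < t)
    (t1 : t ≤ 1) (htm : t * (2 * r) ^ 2 ≤ m) (hε : 0 < ε)
    (h1 : ∫⁻ w in A, ‖P.eval w‖ₑ ≤ ENNReal.ofReal ε)
    (hY : ∀ w ∈ sphere z (2 * r), 2 * ‖P.eval w‖ ≤ Y) (hz : P.eval z ≠ 0) :
    Real.log Y - Real.log (ε / m) ≤
      (11 + 4 * (-Real.log t + 4 * π)) * (Real.log Y - Real.log ‖P.eval z‖) := by
  have lt : 0 ≤ -Real.log t := neg_nonneg.2 (Real.log_nonpos t0.le t1)
  have m0 : 0 < m := lt_of_lt_of_le (by positivity) htm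
  have hR : ((2 * r : ℝ) : ℂ) ≠ 0 := ofReal_ne_zero.2 (by positivity)
  set S := P.comp (Polynomial.C z + Polynomial.C ((2 * r : ℝ) : ℂ) * Polynomial.X) with hS
  have e : ∀ u, (S.roots.map (u - ·)).prod * S.leadingCoeff = P.eval (z + (2 * r : ℝ) * u) :=
    fun u => by rw [mul_comm, ← (IsAlgClosed.splits S).eval_eq_prod_roots, hS]; simp
  have e0 := e 0
  rw [mul_zero, add_zero] at e0
  have hae : ∀ a : ℂ, ∀ᵐ w ∂(volume.restrict A), (w - z) / (2 * r : ℝ) ≠ a := fun a => by
    filter_upwards [ae_restrict_of_ae (Measure.ae_ne volume (z + (2 * r : ℝ) * a))] with w hw h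
    exact hw (by rw [← h]; field_simp; ring)
  obtain ⟨a1, a2⟩ := remez_aux (μ := volume.restrict A) (s := fun w => (w - z) / (2 * r : ℝ))
    (by fun_prop) (by
      filter_upwards [ae_restrict_mem hA] with w hw
      rw [norm_div, norm_real, Real.norm_of_nonneg (by positivity), div_le_iff₀ (by positivity)]
      linarith [mem_ball_iff_norm.1 (hAr hw)]) hae (by simpa using hm) m0.le
    (L := -Real.log t + 4 * π) (by positivity) (fun a ha => potential hr hAr hm t0 t1 htm ha)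
    (Y := Y) S.roots (fun _ => S.leadingCoeff) (by fun_prop)
    (fun _ _ h => hz (by rw [← e0, h, mul_zero]))
    (fun h => hz (by
      rw [← e0, Multiset.prod_eq_zero (Multiset.mem_map.2 ⟨0, h, sub_zero 0⟩), zero_mul]))
    (fun x hx => by
      rw [e]
      refine hY _ ?_
      rw [mem_sphere_iff_norm, add_sub_cancel_left, norm_mul, mem_sphere_zero_iff_norm.1 hx,
        norm_real, Real.norm_of_nonneg (by positivity), mul_one])
  simp only [e, mul_zero, add_zero, mul_div_cancel₀ _ hR, add_sub_cancel] at a1 a2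
  have hP : P ≠ 0 := fun h => hz (by simp [h])
  have h5 : ∀ᵐ w ∂(volume.restrict A), ∀ b ∈ P.roots, w ≠ b :=
    (ae_ball_iff P.roots.finite_toSet.countable).2 fun b _ =>
      ae_restrict_of_ae (Measure.ae_ne volume b)
  have h6 : ENNReal.ofReal (Real.log Y - Real.log (ε / m) + 1) * ENNReal.ofReal m ≤
      ENNReal.ofReal ((11 + 4 * (-Real.log t + 4 * π)) *
        (Real.log Y - Real.log ‖P.eval z‖) * m) + ENNReal.ofReal (m / ε) * ENNReal.ofReal ε := by
    rw [← hm, ← setLIntegral_const]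
    refine (lintegral_mono_ae (g := fun w => ENNReal.ofReal (Real.log Y - Real.log ‖P.eval w‖) +
      ENNReal.ofReal (m / ε) * ‖P.eval w‖ₑ) ?_).trans ?_
    · filter_upwards [h5] with w hw
      have b1 : 0 < ‖P.eval w‖ :=
        norm_pos_iff.2 fun h => hw w ((Polynomial.mem_roots hP).2 h) rfl
      rw [← ofReal_norm, ← ENNReal.ofReal_mul (by positivity)]
      refine le_trans (ENNReal.ofReal_le_ofReal ?_) ENNReal.ofReal_add_le
      have := Real.log_le_sub_one_of_pos (show 0 < ‖P.eval w‖ / (ε / m) by positivity)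
      rw [Real.log_div b1.ne' (by positivity), div_div_eq_mul_div, mul_div_assoc,
        mul_comm] at this
      linarith
    · have hc := P.continuous.measurable
      rw [lintegral_add_right _ (by fun_prop), lintegral_const_mul _ (by fun_prop)]
      gcongr
  rw [← ENNReal.ofReal_mul' m0.le, ← ENNReal.ofReal_mul (by positivity),
    div_mul_cancel₀ _ hε.ne', ← ENNReal.ofReal_add (by positivity) m0.le,
    ENNReal.ofReal_le_ofReal_iff (by positivity)] at h6
  nlinarith

end Pool.Agent.P.MP_56bcbf_an.C
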