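import Pool.Agent.P.MP_56bcbf_an.C.Scale
import Pool.Agent.P.MP_56bcbf_an.C.Remez
import Pool.Agent.P.MP_56bcbf_an.Closed
import Pool.Agent.P.MP_56bcbf_an.Makarov

/-! Bounded point evaluations inside the inner domain of a crescent that is not thin. -/

namespace Pool.Agent.P.MP_56bcbf_an.C

open Set Metric Filter Topology Complex Real MeasureTheory
open scoped NNReal ENNReal

theorem avg_log {δ : ℂ → ℝ} (hδ : ContinuousOn δ (sphere 0 1))
    (hfin : ∫⁻ t in Ioo (-π) π,
      (-ENNReal.log (ENNReal.ofReal (δ (circleMap 0 1 t)))).toENNReal ≠ ∞) :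
    ∃ J ≥ (0 : ℝ), ∀ τ ∈ Ioc (0 : ℝ) 1,
      circleAverage (fun x => -Real.log (max (min (δ x) 1) τ)) 0 1 ≤ J := by
  set T := ∫⁻ t in Ioo (-π) π, (-ENNReal.log (ENNReal.ofReal (δ (circleMap 0 1 t)))).toENNReal
  refine ⟨T.toReal / (2 * π), by positivity, fun τ hτ => ?_⟩
  have m0 : ∀ x, 0 < max (min (δ x) 1) τ := fun x => lt_max_of_lt_right hτ.1
  have hc : Continuous fun t => δ (circleMap 0 1 t) :=
    hδ.comp_continuous (continuous_circleMap 0 1) fun t => circleMap_mem_sphere 0 zero_le_one t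
  have hv : Continuous fun t => -Real.log (max (min (δ (circleMap 0 1 t)) 1) τ) :=
    (Continuous.log ((hc.min continuous_const).max continuous_const) fun t => (m0 _).ne').neg
  rw [le_div_iff₀' (by positivity),
    ← integral_Ioo_eq (fun x => -Real.log (max (min (δ x) 1) τ)) 1,
    integral_eq_lintegral_of_nonneg_ae (Eventually.of_forall fun t =>
      neg_nonneg.2 (Real.log_nonpos (m0 _).le (max_le (min_le_right _ _) hτ.2)))
      hv.aestronglyMeasurable]
  refine ENNReal.toReal_mono hfin (lintegral_mono fun t => ?_)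
  generalize δ (circleMap 0 1 t) = y
  rcases le_or_gt y 0 with h | h
  · simp [h]
  rw [ENNReal.log_ofReal_of_pos h, ← EReal.coe_neg, EReal.real_coe_toENNReal]
  rcases le_total y 1 with k | k
  · rw [min_eq_left k]
    exact ENNReal.ofReal_le_ofReal (neg_le_neg (Real.log_le_log h (le_max_left _ _)))
  · simp [min_eq_right k, max_eq_left hτ.2]

theorem split {P : ℂ → ℂ} (hP : Differentiable ℂ P) {z : ℂ} {r X ε : ℝ} (hr : 0 < r)
    (hX : 0 ≤ X) (hε : 0 ≤ ε) {V Ω : Set ℂ} (hV : IsClosed V) (hΩ : ball z r \ V ⊆ Ω)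
    (h1 : ∫⁻ w in Ω, ‖P w‖ₑ ≤ ENNReal.ofReal ε) (h2 : ∀ w ∈ ball z r ∩ V, ‖P w‖ ≤ X) :
    π * r ^ 2 * ‖P z‖ ≤ X * (π * r ^ 2) + ε := by
  have hm : MeasurableSet (ball z r ∩ V) := measurableSet_ball.inter hV.measurableSet
  have e2 : volume (ball z r) = ENNReal.ofReal (π * r ^ 2) := by
    rw [Complex.volume_ball, mul_comm π, ENNReal.ofReal_mul (sq_nonneg r),
      ENNReal.ofReal_pow hr.le, ← NNReal.coe_real_pi, ENNReal.ofReal_coe_nnreal]
  have h3 := area_mean hP z hr
  rw [← lintegral_inter_add_sdiff _ _ hV.measurableSet] at h3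
  have h4 : ∫⁻ w in ball z r ∩ V, ‖P w‖ₑ ≤ ENNReal.ofReal X * ENNReal.ofReal (π * r ^ 2) := by
    refine (setLIntegral_mono' hm (g := fun _ => ENNReal.ofReal X) fun w hw => ?_).trans ?_
    · rw [← ofReal_norm]
      exact ENNReal.ofReal_le_ofReal (h2 w hw)
    · rw [setLIntegral_const, ← e2]
      gcongr
      exact inter_subset_left
  have h5 := h3.trans (add_le_add h4 ((lintegral_mono_set hΩ).trans h1))
  rwa [← ofReal_norm, ← ENNReal.ofReal_mul (by positivity), ← ENNReal.ofReal_mul hX,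
    ← ENNReal.ofReal_add (by positivity) hε, ENNReal.ofReal_le_ofReal_iff (by positivity)] at h5

theorem local_step (P : Polynomial ℂ) {z : ℂ} {r ε : ℝ} (hr : 0 < r) (r1 : r ≤ 1) (hε : 0 < ε)
    {V Ω : Set ℂ} (hV : IsClosed V) (hΩ : ball z (3 * r) \ V ⊆ Ω) {N : ℕ}
    (hE : ENNReal.ofReal (r ^ N) ≤ volume (ball z r \ V))
    (h1 : ∫⁻ w in Ω, ‖P.eval w‖ₑ ≤ ENNReal.ofReal ε) (hz : P.eval z ≠ 0)
    (h2 : ∀ w ∈ ball z (3 * r) ∩ V, ‖P.eval w‖ ≤ ‖P.eval z‖ * Real.exp 1) :
    ‖P.eval z‖ ≤ Real.exp 300 * ε / r ^ (13 * N + 2) := by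
  have p0 := norm_pos_iff.2 hz
  have hπ := pi_gt_three
  have hπ' := pi_lt_four
  have rN : r ^ (13 * N + 2) ≤ r ^ (13 * N) := pow_le_pow_of_le_one hr.le r1 (by omega)
  have e300 : 1 ≤ Real.exp 300 := Real.one_le_exp (by norm_num)
  rcases le_total (π * r ^ 2 * ‖P.eval z‖) ε with k | k
  · rw [le_div_iff₀ (by positivity)]
    have : r ^ (13 * N + 2) ≤ r ^ 2 := pow_le_pow_of_le_one hr.le r1 (by omega)
    nlinarith [mul_le_mul_of_nonneg_left this p0.le, mul_pos (pow_pos hr 2) p0]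
  have hfin : volume (ball z r \ V) ≠ ⊤ :=
    ((measure_mono sdiff_subset).trans_lt measure_ball_lt_top).ne
  set m := (volume (ball z r \ V)).toReal with hm
  have m1 : r ^ N ≤ m := (ENNReal.ofReal_le_iff_le_toReal hfin).1 hE
  have m0 : 0 < m := (pow_pos hr N).trans_le m1
  have rN1 : r ^ N ≤ 1 := pow_le_one₀ hr.le r1
  have h3 := remez P hr (measurableSet_ball.diff hV.measurableSet) sdiff_subset
    (ENNReal.ofReal_toReal hfin).symm (t := r ^ N / 4) (by positivity) (by linarith)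
    (by nlinarith [mul_le_mul_of_nonneg_left (pow_le_one₀ hr.le r1 : r ^ 2 ≤ 1) (pow_pos hr N).le])
    hε ((lintegral_mono_set ((sdiff_subset_sdiff_left
      (ball_subset_ball (by linarith))).trans hΩ)).trans h1)
    (Y := ‖P.eval z‖ * Real.exp 3) (fun w hw => by
      have hs : ball w r ⊆ ball z (3 * r) := ball_subset_ball' (by linarith [mem_sphere.1 hw])
      have a1 := split P.differentiable hr (by positivity) hε.le hV
        ((sdiff_subset_sdiff_left hs).trans hΩ) h1 fun u hu => h2 u ⟨hs hu.1, hu.2⟩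
      have a2 : ‖P.eval w‖ ≤ ‖P.eval z‖ * (Real.exp 1 + 1) :=
        le_of_mul_le_mul_left (by linarith) (show 0 < π * r ^ 2 by positivity)
      have a3 : 2 * (Real.exp 1 + 1) ≤ Real.exp 3 := by
        have b1 := Real.add_one_le_exp 1
        have b2 : Real.exp 3 = Real.exp 1 ^ 3 := by rw [← Real.exp_nat_mul]; norm_num
        rw [b2]
        nlinarith [mul_self_le_mul_self (by norm_num) b1]
      nlinarith) hz
  have l4 : Real.log 4 ≤ 3 := by linarith [Real.log_le_sub_one_of_pos (show (0 : ℝ) < 4 by norm_num)]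
  have lm := Real.log_le_log (pow_pos hr N) m1
  rw [Real.log_mul p0.ne' (by positivity), Real.log_exp, Real.log_div hε.ne' m0.ne',
    Real.log_div (by positivity) (by norm_num), Real.log_pow] at h3
  rw [Real.log_pow] at lm
  refine le_trans ?_ (div_le_div_of_nonneg_left (by positivity) (by positivity) rN)
  rw [← Real.log_le_log_iff p0 (by positivity), Real.log_div (by positivity) (by positivity),
    Real.log_mul (by positivity) hε.ne', Real.log_exp, Real.log_pow]
  push_cast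
  linarith

theorem bound {ψ : ℂ → ℂ} (hd : DifferentiableOn ℂ ψ (ball 0 1)) (hi : InjOn ψ (closedBall 0 1))
    {C α : ℝ≥0} (hα : 0 < α) (h : HolderOnWith C α ψ (closedBall 0 1)) {U D : Set ℂ}
    (hU : ψ '' ball 0 1 = U) {N : ℕ} {r₀ : ℝ} (hr₀ : 0 < r₀)
    (hE : ∀ z ∈ frontier U, ∀ r ∈ Ioo 0 r₀,
      ENNReal.ofReal (r ^ N) ≤ volume (ball z r \ closure U)) {J : ℝ} (hJ0 : 0 ≤ J)
    (hJ : ∀ τ ∈ Ioc (0 : ℝ) 1,
      circleAverage (fun x => -Real.log (max (min (infDist (ψ x) Dᶜ) 1) τ)) 0 1 ≤ J) :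
    ∃ K : ℕ, 0 < K ∧ ∃ C₀ > (0 : ℝ), ∀ P : Polynomial ℂ, ∀ ε > (0 : ℝ),
      ∫⁻ w in interior (D \ U), ‖P.eval w‖ₑ ≤ ENNReal.ofReal ε →
        ∀ x ∈ sphere (0 : ℂ) 1, ‖P.eval (ψ x)‖ * min (infDist (ψ x) Dᶜ) 1 ^ K ≤ C₀ * ε := by
  have hc : ContinuousOn ψ (closedBall 0 1) := h.continuousOn hα
  have hi' := hi.mono ball_subset_closedBall
  have hk : IsCompact (ψ '' closedBall 0 1) := (isCompact_closedBall 0 1).image_of_continuousOn hc
  have hb : ψ '' ball 0 1 ≠ univ := fun e => noncompact_univ ℂ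
    (univ_subset_iff.1 (e ▸ image_mono ball_subset_closedBall) ▸ hk)
  have hUo : IsOpen U := hU ▸ isOpen_image isOpen_ball hd hi' isOpen_ball subset_rfl
  have hcl : closure U ⊆ ψ '' closedBall 0 1 :=
    closure_minimal (hU ▸ image_mono ball_subset_closedBall) hk.isClosed
  obtain ⟨K, hK, hs⟩ := scale hd hi' hb hα h
  set n := K * (13 * N + 2) with hn
  have n0 : 0 < n := by positivity
  have n1 : (0 : ℝ) < n := Nat.cast_pos.2 n0
  set a : ℝ := 1 / (2 * n) with ha
  set e : ℝ := 1 / (2 * n * (J + 1)) with he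
  have a0 : 0 < a := by positivity
  have e0 : 0 < e := by positivity
  have hae : n * (a + e * J) ≤ 1 := by
    have : e * J ≤ a := by
      rw [he, ha, div_mul_eq_mul_div, div_le_div_iff₀ (by positivity) (by positivity)]
      nlinarith
    calc _ ≤ n * (a + a) := by gcongr
      _ = 1 := by rw [ha]; field_simp; norm_num
  have η0 : 0 < 1 - Real.exp (-a) := sub_pos.2 (Real.exp_lt_one_iff.2 (by linarith))
  have η1 := Real.exp_pos (-a)
  obtain ⟨κ, κ0, κ1, hκ⟩ := hs _ η0 e e0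
  set k := min (κ / 3) (r₀ / 2) with hkd
  have k0 : 0 < k := by positivity
  refine ⟨n, n0, Real.exp 300 / k ^ (13 * N + 2), by positivity, fun P ε hε hPε => ?_⟩
  set w : ℂ → ℝ := fun x => min (infDist (ψ x) Dᶜ) 1 with hw
  have hwc : ContinuousOn w (sphere 0 1) :=
    ((continuous_infDist_pt _).comp_continuousOn (hc.mono sphere_subset_closedBall)).inf
      continuousOn_const
  have hF : DiffContOnCl ℂ (fun x => P.eval (ψ x)) (ball 0 1) :=
    ⟨P.differentiable.comp_differentiableOn hd, by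
      rw [closure_ball _ one_ne_zero]; exact P.continuous.comp_continuousOn hc⟩
  obtain ⟨x₀, hx₀, hmax⟩ := (isCompact_sphere (0 : ℂ) 1).exists_isMaxOn ⟨1, by simp⟩
    (f := fun x => ‖P.eval (ψ x)‖ * w x ^ n)
    ((hF.continuousOn_ball.mono sphere_subset_closedBall).norm.mul (hwc.pow _))
  suffices H : ‖P.eval (ψ x₀)‖ * w x₀ ^ n ≤ Real.exp 300 / k ^ (13 * N + 2) * ε from
    fun x hx => (hmax hx).trans H
  by_contra! H
  set M := ‖P.eval (ψ x₀)‖ * w x₀ ^ n with hM
  have M0 : 0 < M := lt_trans (by positivity) H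
  set z := ψ x₀ with hz
  set d := w x₀ with hdd
  have d1 : d ≤ 1 := min_le_right _ _
  have d0 : 0 < d := by
    refine lt_of_le_of_ne (le_min infDist_nonneg zero_le_one) fun e => ?_
    rw [hM, ← e, zero_pow n0.ne', mul_zero] at M0
    exact M0.false
  have hzU : z ∉ ψ '' ball 0 1 := by
    rintro ⟨y, hy, e⟩
    rw [hi (ball_subset_closedBall hy) (sphere_subset_closedBall hx₀) e] at hy
    exact (mem_ball_zero_iff.1 hy).ne (mem_sphere_zero_iff_norm.1 hx₀)
  have hzf : z ∈ frontier U := by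
    rw [hUo.frontier_eq, ← hU]
    refine ⟨ContinuousOn.image_closure (by rwa [closure_ball _ one_ne_zero]) ⟨x₀, ?_, rfl⟩, hzU⟩
    rw [closure_ball _ one_ne_zero]
    exact sphere_subset_closedBall hx₀
  set r := k * d ^ K with hr
  have r0 : 0 < r := by positivity
  have dK : d ^ K ≤ d := pow_le_of_le_one d0.le d1 hK.ne'
  have r1 : 3 * r ≤ κ * d ^ K := by
    have : r ≤ κ / 3 * d ^ K := by rw [hr]; gcongr; exact min_le_left _ _
    linarith
  have r2 : 3 * r ≤ (1 - Real.exp (-a)) * d := r1.trans (by gcongr; linarith)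
  have r3 : r < r₀ := by
    have : r ≤ r₀ / 2 * 1 := by
      rw [hr]
      gcongr
      · exact min_le_right _ _
      · exact dK.trans d1
    linarith
  have near : ∀ x, ‖ψ x - z‖ < (1 - Real.exp (-a)) * d → Real.exp (-(a - Real.log d)) ≤ w x := by
    intro x hx
    rw [neg_sub, sub_eq_add_neg, Real.exp_add, Real.exp_log d0]
    have h1 := infDist_le_infDist_add_dist (x := z) (y := ψ x) (s := Dᶜ)
    rw [dist_comm, dist_eq_norm] at h1
    have h2 : d ≤ infDist z Dᶜ := min_le_left _ _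
    exact le_min (by linarith) (by nlinarith)
  have A0 : 0 ≤ a - Real.log d := by linarith [Real.log_nonpos d0.le d1]
  have hX : M * Real.exp (n * (a - Real.log d + e * J)) ≤ ‖P.eval z‖ * Real.exp 1 := by
    rw [hM, mul_assoc, ← Real.exp_log (pow_pos d0 n), ← Real.exp_add, Real.log_pow]
    gcongr
    linarith
  have h2 : ∀ u ∈ ball z (3 * r) ∩ closure U, ‖P.eval u‖ ≤ ‖P.eval z‖ * Real.exp 1 := by
    rintro _ ⟨hu, hu'⟩
    obtain ⟨ζ, hζ, rfl⟩ := hcl hu'
    rw [mem_ball, dist_eq_norm] at hu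
    refine le_trans ?_ hX
    rcases (mem_closedBall_zero_iff.1 hζ).lt_or_eq with l | l
    · refine inner hF hwc (fun x => min_le_right _ _) hJ n0 M0 (fun x hx => hmax hx)
        (mem_ball_zero_iff.2 l) A0 e0.le fun x hx => ?_
      rcases le_or_gt ((1 - Real.exp (-a)) * d) ‖ψ x - z‖ with m | m
      · exact Or.inl (hκ z hzU d ⟨d0, d1⟩ ζ (mem_ball_zero_iff.2 l) (hu.trans_le r1) x hx m)
      · exact Or.inr (near x m)
    · have h3 : ‖P.eval (ψ ζ)‖ * w ζ ^ n ≤ M := hmax (mem_sphere_zero_iff_norm.2 l)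
      have h4 := pow_le_pow_left₀ (Real.exp_pos _).le (near ζ (hu.trans_le r2)) n
      have h5 := (mul_le_mul_of_nonneg_left h4 (norm_nonneg (P.eval (ψ ζ)))).trans h3
      rw [← Real.exp_nat_mul, mul_neg, Real.exp_neg, ← div_eq_mul_inv,
        div_le_iff₀ (Real.exp_pos _)] at h5
      refine h5.trans ?_
      gcongr
      linarith [mul_nonneg e0.le hJ0]
  have hΩ : ball z (3 * r) \ closure U ⊆ interior (D \ U) := by
    refine interior_maximal (sdiff_subset_sdiff ?_ subset_closure)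
      (isOpen_ball.sdiff isClosed_closure)
    refine (ball_subset_ball ?_).trans ball_infDist_compl_subset
    have h2 : d ≤ infDist z Dᶜ := min_le_left _ _
    nlinarith
  have h6 := local_step P r0 (by nlinarith) hε isClosed_closure hΩ (hE z hzf r ⟨r0, r3⟩) hPε
    (fun h0 => by rw [hM, h0, norm_zero, zero_mul] at M0; exact M0.false) h2
  rw [hr, mul_pow, ← pow_mul, ← hn, le_div_iff₀ (by positivity)] at h6
  rw [div_mul_eq_mul_div, div_lt_iff₀ (by positivity), hM] at H
  linarith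

end Pool.Agent.P.MP_56bcbf_an.C
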