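import Pool.Agent.P.MP_56bcbf_an.Defs

/-! Regularity conditions on the inner domain of a crescent. -/

namespace Pool.Agent.P.MP_56bcbf_an.C

open MeasureTheory

/-- A Jordan domain whose Riemann map is Holder continuous on the closed disc. -/
def IsHolderDomain (U : Set ℂ) : Prop :=
  ∃ ψ : ℂ → ℂ, Set.InjOn ψ (Metric.closedBall 0 1) ∧ DifferentiableOn ℂ ψ (Metric.ball 0 1) ∧
    ψ '' Metric.ball 0 1 = U ∧
    ∃ C α : NNReal, 0 < α ∧ HolderOnWith C α ψ (Metric.closedBall 0 1)

/-- The area of the exterior near the boundary points decays at most like a power. -/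
def ExtThick (U : Set ℂ) : Prop :=
  ∃ N : ℕ, ∃ r₀ > (0 : ℝ), ∀ z ∈ frontier U, ∀ r ∈ Set.Ioo 0 r₀,
    ENNReal.ofReal (r ^ N) ≤ volume (Metric.ball z r \ closure U)

end Pool.Agent.P.MP_56bcbf_an.C
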