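import Pool.Agent.P.MP_56bcbf_an.C.Defs
import Pool.Agent.P.MP_56bcbf_an.C.Bound
import Pool.Agent.P.MP_56bcbf_an.Main

/-! The three implications. -/

namespace Pool.Agent.P.MP_56bcbf_an.C

open Set Metric Filter Topology Complex Real MeasureTheory
open scoped NNReal ENNReal

theorem lintegral_harm {ψ : ℂ → ℂ} (hc : ContinuousOn ψ (closedBall 0 1)) (D : Set ℂ) :
    ∫⁻ z, (-ENNReal.log (ENNReal.ofReal (infDist z Dᶜ))).toENNReal
      ∂(Measure.map (fun t : ℝ => ψ (cexp (t * I)))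
        ((ENNReal.ofReal (2 * π))⁻¹ • volume.restrict (Ioo (-π) π))) = ⊤ ↔
    ∫⁻ t in Ioo (-π) π,
      (-ENNReal.log (ENNReal.ofReal (infDist (ψ (circleMap 0 1 t)) Dᶜ))).toENNReal = ⊤ := by
  have h1 : Continuous fun t : ℝ => ψ (cexp (t * I)) :=
    hc.comp_continuous (by fun_prop) fun t => by simp
  have h2 : Continuous fun z : ℂ => (-ENNReal.log (ENNReal.ofReal (infDist z Dᶜ))).toENNReal :=
    EReal.continuous_toENNReal.comp (ENNReal.continuous_log.comp
      (ENNReal.continuous_ofReal.comp (continuous_infDist_pt _))).neg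
  rw [lintegral_map h2.measurable h1.measurable, lintegral_smul_measure, smul_eq_mul,
    ENNReal.mul_eq_top]
  simp [circleMap, pi_pos.not_ge, ENNReal.mul_ne_top]

theorem complete_of_thin {D U : Set ℂ} (hD : IsJordanDomain D) (hUD : U ⊆ D) (h : Thin D U)
    {p : ℝ≥0∞} (hp1 : 1 ≤ p) (hp : p ≠ ⊤) :
    Hp p (interior (D \ U)) = Lpa p (interior (D \ U)) := by
  obtain ⟨hD, -, hb, γ, hγ, hγi, hfr⟩ := hD
  obtain ⟨a, -, ω, ⟨ψ, hc, hi, hd, hU, -, rfl⟩, hω⟩ := h
  have hb' : Bornology.IsBounded (interior (D \ U)) :=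
    hb.subset (interior_subset.trans sdiff_subset)
  ext f
  refine and_congr_right fun hf => ⟨fun h => ?_, fun ⟨g, hg, hfg⟩ ε hε => ?_⟩
  · refine analytic_of_limit isOpen_interior hb'.measure_lt_top.ne hp1 hf.1 fun ε hε => ?_
    obtain ⟨P, hP⟩ := h ε hε
    exact ⟨_, P.differentiable, hP⟩
  exact core hD hb hγ hγi hfr hd (hi.mono ball_subset_closedBall) hU hUD
    (fatou_thin hc (continuous_infDist_pt _) ((lintegral_harm hc D).1 hω)) hp1 hp hf hg hfg hε

theorem no_bpe {Ω : Set ℂ} (hΩ : MeasurableSet Ω) (hb : Bornology.IsBounded Ω) {a : ℂ}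
    (ha : a ∉ closure Ω) {p : ℝ≥0∞} (h : Hp p Ω = Lpa p Ω) :
    ¬ ∃ C : ℝ≥0, ∀ P : Polynomial ℂ,
      ‖P.eval a‖ₑ ≤ C * eLpNorm (fun z => P.eval z) p (volume.restrict Ω) := by
  rintro ⟨C, hC⟩
  have : IsFiniteMeasure (volume.restrict Ω) := ⟨by simpa using hb.measure_lt_top⟩
  obtain ⟨e, e0, he⟩ := Metric.isOpen_iff.1 isClosed_closure.isOpen_compl a ha
  have hne : ∀ z ∈ Ω, e ≤ ‖z - a‖ := fun z hz => by
    by_contra! k
    exact he (mem_ball_iff_norm.2 k) (subset_closure hz)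
  have hne' : ∀ z ∈ Ω, z - a ≠ 0 := fun z hz => norm_pos_iff.1 (e0.trans_le (hne z hz))
  obtain ⟨R, R0, hR⟩ := hb.subset_ball_lt 0 a
  have hf : (fun z => (z - a)⁻¹) ∈ Lpa p Ω := by
    refine ⟨MemLp.of_bound (Measurable.aestronglyMeasurable (by fun_prop)) e⁻¹ ?_, _,
      DifferentiableOn.inv (by fun_prop) hne', Eventually.of_forall fun _ => rfl⟩
    filter_upwards [ae_restrict_mem hΩ] with z hz
    rw [norm_inv]
    exact inv_anti₀ e0 (hne z hz)
  rw [← h] at hf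
  have hT : (C : ℝ≥0∞) * ENNReal.ofReal R ≠ ⊤ :=
    ENNReal.mul_ne_top ENNReal.coe_ne_top ENNReal.ofReal_ne_top
  obtain ⟨P, hP⟩ := hf.2 _ (ENNReal.inv_pos.2 hT)
  have h1 := hC (1 - (Polynomial.X - Polynomial.C a) * P)
  have h2 : eLpNorm (fun z => (1 - (Polynomial.X - Polynomial.C a) * P).eval z) p
      (volume.restrict Ω) ≤ ENNReal.ofReal R *
        eLpNorm (fun z => (z - a)⁻¹ - P.eval z) p (volume.restrict Ω) := by
    refine eLpNorm_le_mul_eLpNorm_of_ae_le_mul ?_ p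
    filter_upwards [ae_restrict_mem hΩ] with z hz
    have e1 : (1 - (Polynomial.X - Polynomial.C a) * P).eval z =
        (z - a) * ((z - a)⁻¹ - P.eval z) := by
      rw [mul_sub, mul_inv_cancel₀ (hne' z hz)]
      simp
    rw [e1, norm_mul]
    gcongr
    exact (mem_ball_iff_norm.1 (hR hz)).le
  have h3 : 1 ≤ C * ENNReal.ofReal R *
      eLpNorm (fun z => (z - a)⁻¹ - P.eval z) p (volume.restrict Ω) := by
    rw [mul_assoc]
    refine le_trans ?_ (h1.trans (by gcongr))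
    simp
  rcases eq_or_ne ((C : ℝ≥0∞) * ENNReal.ofReal R) 0 with k | k
  · simp [k] at h3
  have := (ENNReal.mul_lt_mul_right k hT hP).trans_eq (ENNReal.mul_inv_cancel k hT)
  exact absurd h3 this.not_ge

theorem bpe {D U : Set ℂ} (hb : Bornology.IsBounded (interior (D \ U))) (hH : IsHolderDomain U)
    (hE : ExtThick U) (h : ¬ Thin D U) {p : ℝ≥0∞} (hp1 : 1 ≤ p) {a : ℂ} (ha : a ∈ U) :
    ∃ C : ℝ≥0, ∀ P : Polynomial ℂ,
      ‖P.eval a‖ₑ ≤ C * eLpNorm (fun z => P.eval z) p (volume.restrict (interior (D \ U))) := by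
  obtain ⟨ψ, hi, hd, hU, C, α, hα, hH⟩ := hH
  obtain ⟨n, r₀, hr₀, hE⟩ := hE
  have hc : ContinuousOn ψ (closedBall 0 1) := hH.continuousOn hα
  have hδ : ContinuousOn (fun x => infDist (ψ x) Dᶜ) (sphere 0 1) :=
    (continuous_infDist_pt _).comp_continuousOn (hc.mono sphere_subset_closedBall)
  obtain ⟨J, J0, hJ⟩ := avg_log hδ fun e => h ⟨ψ 0, hU ▸ mem_image_of_mem ψ (by simp), _,
    ⟨ψ, hc, hi, hd, hU, rfl, rfl⟩, (lintegral_harm hc D).2 e⟩
  obtain ⟨K, hK, C₀, C0, hB⟩ := bound (D := D) hd hi hα hH hU hr₀ hE J0 hJ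
  obtain ⟨ζ, hζ, rfl⟩ := hU.symm ▸ ha
  set μ := volume.restrict (interior (D \ U))
  set V := μ univ ^ (1 / (1 : ℝ≥0∞).toReal - 1 / p.toReal) with hV
  have hp : 0 ≤ 1 / (1 : ℝ≥0∞).toReal - 1 / p.toReal := by
    rcases eq_or_ne p ⊤ with rfl | k
    · simp
    · have := ENNReal.toReal_mono k hp1
      rw [sub_nonneg]
      exact one_div_le_one_div_of_le (by simp) this
  have hVt : V ≠ ⊤ := ENNReal.rpow_ne_top_of_nonneg hp (by simpa [μ] using hb.measure_lt_top.ne)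
  set B := (1 + ‖ζ - 0‖) / (1 - ‖ζ - 0‖) with hBd
  have B0 : 0 ≤ B := div_nonneg (by positivity) (sub_nonneg.2 (mem_ball_iff_norm.1 hζ).le)
  set E := C₀ * Real.exp (K * (0 + B * J)) with hEd
  have E0 : 0 < E := by positivity
  refine ⟨(E * V.toReal + 1).toNNReal, fun P => ?_⟩
  set N := eLpNorm (fun z => P.eval z) p μ
  have hN : N ≠ ⊤ := (memLp_eval isOpen_interior.measurableSet hb p P.continuous).2.ne
  have h1 : ∫⁻ w, ‖P.eval w‖ₑ ∂μ ≤ N * V := by
    rw [← eLpNorm_one_eq_lintegral_enorm]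
    exact eLpNorm_le_eLpNorm_mul_rpow_measure_univ hp1 P.continuous.aestronglyMeasurable
  have h2 : ‖P.eval (ψ ζ)‖ ≤ E * (N * V).toReal := by
    refine le_of_forall_gt_imp_ge_of_dense fun t ht => ?_
    have t0 : 0 < t := lt_of_le_of_lt (by positivity) ht
    have hF : DiffContOnCl ℂ (fun x => P.eval (ψ x)) (ball 0 1) :=
      ⟨P.differentiable.comp_differentiableOn hd, by
        rw [closure_ball _ one_ne_zero]; exact P.continuous.comp_continuousOn hc⟩
    have h3 := inner hF (w := fun x => min (infDist (ψ x) Dᶜ) 1) (hδ.inf continuousOn_const)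
      (fun x => min_le_right _ _) hJ hK (M := C₀ * (t / E)) (by positivity)
      (hB P _ (by positivity) (h1.trans ?_)) hζ le_rfl B0 fun x hx => Or.inl ?_
    · refine h3.trans_eq ?_
      rw [mul_right_comm, ← hEd]
      field_simp
    · rw [← ENNReal.ofReal_toReal (ENNReal.mul_ne_top hN hVt)]
      exact ENNReal.ofReal_le_ofReal (by rw [le_div_iff₀' E0]; exact ht.le)
    · rw [poissonKernel_eq_re_herglotzRieszKernel]
      exact re_herglotzRieszKernel_le hx hζ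
  rw [← ofReal_norm, ← ENNReal.ofReal_toReal hN, ← ENNReal.ofReal.eq_1,
    ← ENNReal.ofReal_mul (by positivity)]
  refine ENNReal.ofReal_le_ofReal (h2.trans ?_)
  rw [ENNReal.toReal_mul]
  nlinarith [N.toReal_nonneg]

end Pool.Agent.P.MP_56bcbf_an.C
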