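import Pool.Agent.P.MP_56bcbf_an.Koebe

/-! A power lower bound for the distance to the boundary under a conformal map. -/

namespace Pool.Agent.P.MP_56bcbf_an.C

open Set Metric Filter Topology Complex

theorem radial_log {b : ℂ → ℂ} {A : ℝ} (hb : DifferentiableOn ℂ b (ball 0 1))
    (hB : ∀ z ∈ ball (0 : ℂ) 1, ‖deriv b z‖ * (1 - ‖z‖) ≤ A) {ζ : ℂ} (hζ : ζ ∈ ball (0 : ℂ) 1) :
    ‖b ζ - b 0‖ ≤ -(A * Real.log (1 - ‖ζ‖)) := by
  have h1 : ‖ζ‖ < 1 := mem_ball_zero_iff.1 hζ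
  have h0 := norm_nonneg ζ
  have hm : ∀ t ∈ Icc (0 : ℝ) 1, (t : ℂ) * ζ ∈ ball (0 : ℂ) 1 ∧ ‖(t : ℂ) * ζ‖ = t * ‖ζ‖ ∧
      0 < 1 - t * ‖ζ‖ := by
    intro t ht
    have e : ‖(t : ℂ) * ζ‖ = t * ‖ζ‖ := by simp [abs_of_nonneg ht.1]
    have : t * ‖ζ‖ < 1 := by nlinarith [ht.1, ht.2]
    exact ⟨mem_ball_zero_iff.2 (by rw [e]; exact this), e, by linarith⟩
  have hf : ∀ t ∈ Icc (0 : ℝ) 1, HasDerivAt (fun s : ℝ => b (s * ζ) - b 0)
      (deriv b (t * ζ) * ζ) t := by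
    intro t ht
    have h2 : HasDerivAt (fun s : ℝ => (s : ℂ) * ζ) ζ t := by
      simpa using (hasDerivAt_id t).ofReal_comp.mul_const ζ
    have h3 := (hb.differentiableAt (isOpen_ball.mem_nhds (hm t ht).1)).hasDerivAt
    exact (h3.comp t h2).sub_const _
  have hg : ∀ t ∈ Icc (0 : ℝ) 1, HasDerivAt (fun s : ℝ => -(A * Real.log (1 - s * ‖ζ‖)))
      (A * ‖ζ‖ / (1 - t * ‖ζ‖)) t := by
    intro t ht
    have h2 : HasDerivAt (fun s : ℝ => 1 - s * ‖ζ‖) (-‖ζ‖) t := by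
      simpa using ((hasDerivAt_id t).mul_const ‖ζ‖).const_sub 1
    exact ((h2.log (hm t ht).2.2.ne').const_mul A).neg.congr_deriv (by ring)
  have := image_norm_le_of_norm_deriv_right_le_deriv_boundary' (a := 0) (b := 1)
    (f := fun s : ℝ => b (s * ζ) - b 0) (f' := fun t => deriv b (t * ζ) * ζ)
    (fun t ht => (hf t ht).continuousAt.continuousWithinAt)
    (fun t ht => (hf t (Ico_subset_Icc_self ht)).hasDerivWithinAt)
    (B := fun s : ℝ => -(A * Real.log (1 - s * ‖ζ‖))) (B' := fun t => A * ‖ζ‖ / (1 - t * ‖ζ‖))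
    (by simp) (fun t ht => (hg t ht).continuousAt.continuousWithinAt)
    (fun t ht => (hg t (Ico_subset_Icc_self ht)).hasDerivWithinAt)
    (fun t ht => by
      obtain ⟨a1, a2, a3⟩ := hm t (Ico_subset_Icc_self ht)
      have := hB _ a1
      rw [a2] at this
      rw [norm_mul, le_div_iff₀ a3]
      nlinarith) (x := 1) (by simp)
  simpa using this

theorem koebe_lower {ψ : ℂ → ℂ} (hd : DifferentiableOn ℂ ψ (ball 0 1)) (hi : InjOn ψ (ball 0 1))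
    (hb : ψ '' ball 0 1 ≠ univ) : ∃ c > (0 : ℝ), ∃ N : ℕ, 0 < N ∧ ∀ ζ ∈ ball (0 : ℂ) 1,
      ∀ z ∉ ψ '' ball 0 1, c * (1 - ‖ζ‖) ^ N ≤ ‖ψ ζ - z‖ := by
  obtain ⟨b, hbd, hbe, hB⟩ := exists_bloch hd hi hb
  obtain ⟨A, hA, hB⟩ : ∃ A : ℕ, (1 : ℝ) ≤ A ∧
      ∀ z ∈ ball (0 : ℂ) 1, ‖deriv b z‖ * (1 - ‖z‖) ≤ A :=
    ⟨166400, by norm_num, by simpa using hB⟩
  refine ⟨Real.exp (b 0).re / (32 * A), by positivity, A + 1, by omega, fun ζ hζ z hz => ?_⟩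
  have h1 : 0 < 1 - ‖ζ‖ := sub_pos.2 (mem_ball_zero_iff.1 hζ)
  have hlow : Real.exp (b 0).re * (1 - ‖ζ‖) ^ A ≤ ‖deriv ψ ζ‖ := by
    have h2 := radial_log hbd hB hζ
    have h3 := (abs_le.1 ((abs_re_le_norm (b ζ - b 0)).trans h2)).1
    rw [← hbe ζ hζ, norm_exp, ← Real.exp_log h1, ← Real.exp_nat_mul, ← Real.exp_add]
    simp only [sub_re] at h3
    exact Real.exp_le_exp.2 (by linarith)
  set ρ := (1 - ‖ζ‖) / (8 * A) with hρ
  have hρ0 : 0 < ρ := by positivity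
  have hρ1 : ρ ≤ (1 - ‖ζ‖) / 2 := by
    rw [hρ]
    gcongr
    linarith
  have hw : ∀ w ∈ closedBall ζ ρ, (1 - ‖ζ‖) / 2 ≤ 1 - ‖w‖ := by
    intro w hw
    have := norm_sub_norm_le w ζ
    rw [mem_closedBall, dist_eq_norm] at hw
    linarith
  have hs : closedBall ζ ρ ⊆ ball 0 1 := fun w h => mem_ball_zero_iff.2 (by linarith [hw w h])
  have hda : ∀ w ∈ closedBall ζ ρ, HasDerivAt (fun u => ψ u - deriv ψ ζ * u)
      (deriv ψ w - deriv ψ ζ) w := fun w h =>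
    ((hd.differentiableAt (isOpen_ball.mem_nhds (hs h))).hasDerivAt.sub
      ((hasDerivAt_id w).const_mul (deriv ψ ζ))).congr_deriv (by rw [mul_one])
  have hbd' : ∀ w ∈ closedBall ζ ρ, ‖deriv ψ w - deriv ψ ζ‖ ≤ ‖deriv ψ ζ‖ / 2 := by
    intro w h
    have h2 : ‖b w - b ζ‖ ≤ 2 * A / (1 - ‖ζ‖) * ‖w - ζ‖ :=
      (convex_closedBall ζ ρ).norm_image_sub_le_of_norm_deriv_le
        (fun x hx => hbd.differentiableAt (isOpen_ball.mem_nhds (hs hx)))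
        (fun x hx => by
          have a1 := hB x (hs hx)
          have a2 := hw x hx
          rw [le_div_iff₀ h1]
          nlinarith [norm_nonneg (deriv b x)]) (mem_closedBall_self hρ0.le) h
    have h3 : ‖b w - b ζ‖ ≤ 1 / 4 := by
      refine h2.trans ?_
      rw [mem_closedBall, dist_eq_norm] at h
      calc _ ≤ 2 * A / (1 - ‖ζ‖) * ρ := by gcongr
        _ = 1 / 4 := by rw [hρ]; field_simp; norm_num
    have e : deriv ψ w - deriv ψ ζ = deriv ψ ζ * (exp (b w - b ζ) - 1) := by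
      rw [← hbe w (hs h), ← hbe ζ hζ, mul_sub, ← exp_add]
      simp
    have h4 := Complex.norm_exp_sub_one_le (h3.trans (by norm_num))
    rw [e, norm_mul]
    nlinarith [norm_nonneg (deriv ψ ζ)]
  have hsp : ∀ w ∈ sphere ζ ρ, ‖deriv ψ ζ‖ * ρ / 2 ≤ ‖ψ w - ψ ζ‖ := by
    intro w h
    have h2 := (convex_closedBall ζ ρ).norm_image_sub_le_of_norm_hasDerivWithin_le
      (fun x hx => (hda x hx).hasDerivWithinAt) hbd' (mem_closedBall_self hρ0.le)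
      (sphere_subset_closedBall h)
    rw [mem_sphere, dist_eq_norm] at h
    have h3 : ‖deriv ψ ζ * (w - ζ)‖ ≤ ‖ψ w - ψ ζ‖ +
        ‖ψ w - deriv ψ ζ * w - (ψ ζ - deriv ψ ζ * ζ)‖ := by
      refine le_trans (le_of_eq ?_) (norm_sub_le _ _)
      congr 1
      ring
    rw [norm_mul, h] at h3
    rw [h] at h2
    linarith
  have hfr : ∃ᶠ w in 𝓝 ζ, ψ w ≠ ψ ζ := by
    have : ∀ᶠ w in 𝓝[≠] ζ, ψ w ≠ ψ ζ := by
      filter_upwards [nhdsWithin_le_nhds (isOpen_ball.mem_nhds hζ), self_mem_nhdsWithin]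
        with w a1 a2 a3 using a2 (hi a1 hζ a3)
    exact this.frequently.filter_mono nhdsWithin_le_nhds
  have hdc : DiffContOnCl ℂ ψ (ball ζ ρ) := by
    refine DifferentiableOn.diffContOnCl ?_
    rw [closure_ball ζ hρ0.ne']
    exact hd.mono hs
  have h5 := (hdc.ball_subset_image_closedBall hρ0 hsp hfr).trans (image_mono hs)
  have h6 : ‖deriv ψ ζ‖ * ρ / 2 / 2 ≤ ‖ψ ζ - z‖ := by
    by_contra! h
    exact hz (h5 (by rwa [mem_ball', dist_eq_norm]))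
  refine le_trans ?_ h6
  calc _ = Real.exp (b 0).re * (1 - ‖ζ‖) ^ A * ρ / 2 / 2 := by rw [hρ]; field_simp; ring
    _ ≤ _ := by gcongr

end Pool.Agent.P.MP_56bcbf_an.C
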