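import Mathlib

/-! The Poisson integral of a continuous boundary bound majorises the logarithm of the modulus. -/

namespace Pool.Agent.P.MP_56bcbf_an.C

open Set Metric Filter Topology Complex Real

theorem approx {g : ℂ → ℝ} (hg : ContinuousOn g (sphere 0 1)) {ε : ℝ} (hε : 0 < ε) :
    ∃ q : ℂ → ℂ, Differentiable ℂ q ∧ ∀ x ∈ sphere (0 : ℂ) 1, |(q x).re - g x| ≤ ε := by
  have : Fact (0 < (1 : ℝ)) := ⟨one_pos⟩
  have hc : Continuous fun x : AddCircle (1 : ℝ) => ((AddCircle.toCircle x : Circle) : ℂ) :=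
    continuous_induced_dom.comp AddCircle.continuous_toCircle
  let G : C(AddCircle (1 : ℝ), ℂ) := ⟨fun x => (g (AddCircle.toCircle x : Circle) : ℂ),
    continuous_ofReal.comp (hg.comp_continuous hc fun x => (AddCircle.toCircle x).2)⟩
  have hG : G ∈ closure (Submodule.span ℂ (range <| @fourier 1) : Set C(AddCircle (1 : ℝ), ℂ)) := by
    rw [← Submodule.topologicalClosure_coe, span_fourier_closure_eq_top]
    trivial
  obtain ⟨f, hf, hd⟩ := Metric.mem_closure_iff.1 hG ε hε
  have key : ∃ q1 q2 : ℂ → ℂ, Differentiable ℂ q1 ∧ Differentiable ℂ q2 ∧ ∀ x : AddCircle (1 : ℝ),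
      f x = q1 (AddCircle.toCircle x : Circle) +
        (starRingEnd ℂ) (q2 (AddCircle.toCircle x : Circle)) := by
    clear hd
    induction hf using Submodule.span_induction with
    | mem f h =>
      obtain ⟨n, rfl⟩ := h
      have e : ∀ (m : ℕ) (x : AddCircle (1 : ℝ)),
          fourier (m : ℤ) x = ((AddCircle.toCircle x : Circle) : ℂ) ^ m := fun m x => by
        rw [fourier_apply, AddCircle.toCircle_zsmul]
        simp
      obtain ⟨m, rfl | rfl⟩ := Int.eq_nat_or_neg n
      · exact ⟨fun z => z ^ m, 0, by fun_prop, by fun_prop, fun x => by rw [e]; simp⟩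
      · exact ⟨0, fun z => z ^ m, by fun_prop, by fun_prop, fun x => by
          rw [fourier_neg, e]; simp⟩
    | zero => exact ⟨0, 0, by fun_prop, by fun_prop, fun x => by simp⟩
    | add f f' _ _ h h' =>
      obtain ⟨a, b, ha, hb, h⟩ := h
      obtain ⟨a', b', ha', hb', h'⟩ := h'
      exact ⟨a + a', b + b', ha.add ha', hb.add hb', fun x => by
        simp only [ContinuousMap.add_apply, h, h', Pi.add_apply, map_add]; ring⟩
    | smul c f _ h =>
      obtain ⟨a, b, ha, hb, h⟩ := h
      exact ⟨fun z => c * a z, fun z => (starRingEnd ℂ) c * b z, ha.const_mul _, hb.const_mul _,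
        fun x => by simp [h, mul_add]⟩
  obtain ⟨q1, q2, h1, h2, h⟩ := key
  refine ⟨q1 + q2, h1.add h2, fun x hx => ?_⟩
  obtain ⟨y, hy⟩ := (AddCircle.homeomorphCircle (T := 1) one_ne_zero).surjective ⟨x, hx⟩
  rw [AddCircle.homeomorphCircle_apply] at hy
  have e : ((AddCircle.toCircle y : Circle) : ℂ) = x := by rw [hy]
  have h3 := (ContinuousMap.dist_apply_le_dist (f := G) (g := f) y).trans hd.le
  rw [dist_comm, dist_eq_norm, h y] at h3
  have h4 := (abs_re_le_norm _).trans h3
  simpa [G, e] using h4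

theorem kernel_nonneg {ζ x : ℂ} (hζ : ζ ∈ ball (0 : ℂ) 1) (hx : x ∈ sphere (0 : ℂ) 1) :
    0 ≤ poissonKernel 0 ζ x := by
  have h1 := mem_ball_zero_iff.1 hζ
  rw [poissonKernel_def, sub_zero, sub_zero, mem_sphere_zero_iff_norm.1 hx]
  exact div_nonneg (by nlinarith [norm_nonneg ζ]) (sq_nonneg _)

theorem kernel_cont {ζ : ℂ} (hζ : ζ ∈ ball (0 : ℂ) 1) :
    ContinuousOn (poissonKernel 0 ζ) (sphere 0 1) := by
  rw [poissonKernel_eq_re_herglotzRieszKernel]
  have := continuousOn_herglotzRieszKernel_sphere hζ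
  rw [abs_one] at this
  exact continuous_re.comp_continuousOn this

theorem kernel_avg {ζ : ℂ} (hζ : ζ ∈ ball (0 : ℂ) 1) :
    circleAverage (poissonKernel 0 ζ) 0 1 = 1 := by
  have := (InnerProductSpace.harmonicContOnCl_const (c := (1 : ℝ))
    (s := ball (0 : ℂ) 1)).circleAverage_poissonKernel_smul hζ
  rw [← this]
  congr 1
  ext x
  simp

theorem avg_le {ζ : ℂ} (hζ : ζ ∈ ball (0 : ℂ) 1) {u v : ℂ → ℝ} (hu : ContinuousOn u (sphere 0 1))
    (hv : ContinuousOn v (sphere 0 1)) {A B : ℝ}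
    (h : ∀ x ∈ sphere (0 : ℂ) 1, u x ≤ A * poissonKernel 0 ζ x + B * v x) :
    circleAverage u 0 1 ≤ A + B * circleAverage v 0 1 := by
  have h1 : CircleIntegrable (A • poissonKernel 0 ζ) 0 1 :=
    ((kernel_cont hζ).const_smul A).circleIntegrable zero_le_one
  have h2 : CircleIntegrable (B • v) 0 1 := (hv.const_smul B).circleIntegrable zero_le_one
  have := circleAverage_mono (hu.circleIntegrable zero_le_one) (h1.add h2)
    (fun x hx => by simpa using h x (by simpa using hx))
  rwa [circleAverage_add h1 h2, circleAverage_smul, circleAverage_smul, kernel_avg hζ,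
    smul_eq_mul, smul_eq_mul, mul_one] at this

theorem majorant {F : ℂ → ℂ} (hF : DiffContOnCl ℂ F (ball 0 1)) {g : ℂ → ℝ}
    (hg : ContinuousOn g (sphere 0 1)) {M : ℝ} (hM : 0 ≤ M)
    (h : ∀ x ∈ sphere (0 : ℂ) 1, ‖F x‖ ≤ M * Real.exp (g x)) {ζ : ℂ} (hζ : ζ ∈ ball (0 : ℂ) 1) :
    ‖F ζ‖ ≤ M * Real.exp (circleAverage (fun x => poissonKernel 0 ζ x * g x) 0 1) := by
  set H := circleAverage (fun x => poissonKernel 0 ζ x * g x) 0 1 with hH
  have key : ∀ ε > (0 : ℝ), ‖F ζ‖ ≤ M * Real.exp (H + 2 * ε) := by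
    intro ε hε
    obtain ⟨q, hq, hqg⟩ := approx hg hε
    have h1 : ‖F ζ * cexp (-q ζ)‖ ≤ M * Real.exp ε := by
      refine Complex.norm_le_of_forall_mem_frontier_norm_le (f := fun z => F z * cexp (-q z))
        isBounded_ball (hF.smul hq.neg.cexp.diffContOnCl) (fun x hx => ?_) (subset_closure hζ)
      rw [frontier_ball _ one_ne_zero] at hx
      rw [norm_mul, norm_exp, neg_re]
      calc _ ≤ M * Real.exp (g x) * Real.exp (-(q x).re) := by gcongr; exact h x hx
        _ = M * Real.exp (g x - (q x).re) := by rw [mul_assoc, ← Real.exp_add, sub_eq_add_neg]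
        _ ≤ _ := by gcongr; linarith [(abs_le.1 (hqg x hx)).1]
    have hc : ContinuousOn (poissonKernel 0 ζ • q) (sphere 0 1) :=
      (kernel_cont hζ).smul hq.continuous.continuousOn
    have h2 : (q ζ).re ≤ ε + 1 * H := by
      rw [← hq.diffContOnCl.circleAverage_poissonKernel_smul hζ, ← reCLM_apply,
        ← reCLM.circleAverage_comp_comm (hc.circleIntegrable zero_le_one)]
      refine avg_le hζ (v := fun x => poissonKernel 0 ζ x * g x)
        (reCLM.continuous.comp_continuousOn hc) ((kernel_cont hζ).mul hg) fun x hx => ?_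
      have := kernel_nonneg hζ hx
      have := (abs_le.1 (hqg x hx)).2
      simp only [Function.comp_apply, Pi.smul_apply', reCLM_apply, smul_re, smul_eq_mul]
      nlinarith
    rw [norm_mul, norm_exp, neg_re, Real.exp_neg, ← div_eq_mul_inv,
      div_le_iff₀ (Real.exp_pos _), mul_assoc, ← Real.exp_add] at h1
    exact h1.trans (mul_le_mul_of_nonneg_left (Real.exp_le_exp.2 (by linarith)) hM)
  have ht : Tendsto (fun ε : ℝ => M * Real.exp (H + 2 * ε)) (𝓝[>] 0)
      (𝓝 (M * Real.exp (H + 2 * 0))) :=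
    tendsto_nhdsWithin_of_tendsto_nhds (Continuous.tendsto (by fun_prop) 0)
  simpa using ge_of_tendsto ht (eventually_mem_nhdsWithin.mono key)

end Pool.Agent.P.MP_56bcbf_an.C
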