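import Pool.Agent.P.MP_56bcbf_an.C.Lower
import Pool.Agent.P.MP_56bcbf_an.C.Majorant

/-! The Poisson kernel at small scales in a Holder domain, and the weighted maximum principle. -/

namespace Pool.Agent.P.MP_56bcbf_an.C

open Set Metric Filter Topology Complex Real
open scoped NNReal

theorem holder_pow {ψ : ℂ → ℂ} {C α : ℝ≥0} (hα : 0 < α)
    (h : HolderOnWith C α ψ (closedBall 0 1)) :
    ∃ L > (0 : ℝ), ∃ n : ℕ, ∀ x ∈ closedBall (0 : ℂ) 1, ∀ y ∈ closedBall (0 : ℂ) 1,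
      ‖ψ x - ψ y‖ ^ n ≤ L * ‖x - y‖ := by
  have ha : (0 : ℝ) < α := hα
  obtain ⟨n, hn⟩ := exists_nat_ge (1 / α : ℝ)
  rw [div_le_iff₀ ha] at hn
  refine ⟨(C + 1) ^ n * 2 ^ ((α : ℝ) * n - 1), by positivity, n, fun x hx y hy => ?_⟩
  have h1 := h.dist_le hx hy
  rw [dist_eq_norm, dist_eq_norm] at h1
  have h2 : ‖x - y‖ ≤ 2 := by
    linarith [norm_sub_le x y, mem_closedBall_zero_iff.1 hx, mem_closedBall_zero_iff.1 hy]
  have h3 : (‖x - y‖ ^ (α : ℝ)) ^ n = ‖x - y‖ ^ ((α : ℝ) * n - 1) * ‖x - y‖ := by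
    rw [← Real.rpow_natCast, ← Real.rpow_mul (norm_nonneg _),
      ← Real.rpow_add_one' (norm_nonneg _) (by linarith), sub_add_cancel]
  calc _ ≤ ((C + 1) * ‖x - y‖ ^ (α : ℝ)) ^ n := by
        gcongr
        refine h1.trans ?_
        gcongr
        linarith
    _ = (C + 1) ^ n * (‖x - y‖ ^ ((α : ℝ) * n - 1) * ‖x - y‖) := by rw [mul_pow, h3]
    _ ≤ (C + 1) ^ n * (2 ^ ((α : ℝ) * n - 1) * ‖x - y‖) := by
        gcongr
        linarith
    _ = _ := by ring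

theorem scale {ψ : ℂ → ℂ} (hd : DifferentiableOn ℂ ψ (ball 0 1)) (hi : InjOn ψ (ball 0 1))
    (hb : ψ '' ball 0 1 ≠ univ) {C α : ℝ≥0} (hα : 0 < α)
    (h : HolderOnWith C α ψ (closedBall 0 1)) :
    ∃ K : ℕ, 0 < K ∧ ∀ η > (0 : ℝ), ∀ e > (0 : ℝ), ∃ κ > (0 : ℝ), κ ≤ η / 2 ∧
      ∀ z ∉ ψ '' ball 0 1, ∀ d ∈ Ioc (0 : ℝ) 1, ∀ ζ ∈ ball (0 : ℂ) 1, ‖ψ ζ - z‖ < κ * d ^ K →
        ∀ x ∈ sphere (0 : ℂ) 1, η * d ≤ ‖ψ x - z‖ → poissonKernel 0 ζ x ≤ e := by
  obtain ⟨c, hc, N, hN, hK⟩ := koebe_lower hd hi hb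
  obtain ⟨L, hL, n, hH⟩ := holder_pow hα h
  refine ⟨2 * n * N + 1, by omega, fun η hη e he => ?_⟩
  set y := e / 2 * ((η / 2) ^ n / L) ^ 2 with hy
  have hy0 : 0 < y := by positivity
  refine ⟨min (η / 2) (c * y ^ N), by positivity, min_le_left _ _,
    fun z hz d hd1 ζ hζ h1 x hx h2 => ?_⟩
  have d0 := hd1.1
  have s0 : 0 < 1 - ‖ζ‖ := sub_pos.2 (mem_ball_zero_iff.1 hζ)
  have h3 : ‖ψ ζ - z‖ ≤ η / 2 * d := by
    refine h1.le.trans ?_
    gcongr
    · exact min_le_left _ _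
    · exact pow_le_of_le_one d0.le hd1.2 (by omega)
  have h4 : η / 2 * d ≤ ‖ψ x - ψ ζ‖ := by
    have := norm_sub_le_norm_sub_add_norm_sub (ψ x) (ψ ζ) z
    linarith
  have h5 : (η / 2 * d) ^ n / L ≤ ‖x - ζ‖ := by
    rw [div_le_iff₀' hL]
    exact (pow_le_pow_left₀ (by positivity) h4 n).trans
      (hH x (sphere_subset_closedBall hx) ζ (ball_subset_closedBall hζ))
  have h6 : 1 - ‖ζ‖ ≤ y * d ^ (2 * n) := by
    refine le_of_pow_le_pow_left₀ hN.ne' (by positivity) (le_of_mul_le_mul_left ?_ hc)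
    refine ((hK ζ hζ z hz).trans h1.le).trans ?_
    calc _ ≤ c * y ^ N * d ^ (2 * n * N) := by
          gcongr ?_ * ?_
          · exact min_le_right _ _
          · exact pow_le_pow_of_le_one d0.le hd1.2 (by omega)
      _ = _ := by rw [mul_pow y, ← pow_mul, mul_assoc]
  have h7 : 0 < (η / 2 * d) ^ n / L := by positivity
  rw [poissonKernel_def, sub_zero, sub_zero, mem_sphere_zero_iff_norm.1 hx,
    div_le_iff₀ (pow_pos (h7.trans_le h5) 2)]
  calc 1 ^ 2 - ‖ζ‖ ^ 2 ≤ 2 * (1 - ‖ζ‖) := by nlinarith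
    _ ≤ 2 * (y * d ^ (2 * n)) := by gcongr
    _ = e * ((η / 2 * d) ^ n / L) ^ 2 := by rw [hy]; ring
    _ ≤ _ := by gcongr

theorem inner {F : ℂ → ℂ} (hF : DiffContOnCl ℂ F (ball 0 1)) {w : ℂ → ℝ}
    (hw : ContinuousOn w (sphere 0 1)) (hw1 : ∀ x, w x ≤ 1) {J : ℝ}
    (hJ : ∀ τ ∈ Ioc (0 : ℝ) 1, circleAverage (fun x => -Real.log (max (w x) τ)) 0 1 ≤ J)
    {K : ℕ} (hK : 0 < K) {M : ℝ} (hM : 0 < M)
    (h : ∀ x ∈ sphere (0 : ℂ) 1, ‖F x‖ * w x ^ K ≤ M) {ζ : ℂ} (hζ : ζ ∈ ball (0 : ℂ) 1)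
    {A B : ℝ} (hA : 0 ≤ A) (hB : 0 ≤ B)
    (hAB : ∀ x ∈ sphere (0 : ℂ) 1, poissonKernel 0 ζ x ≤ B ∨ Real.exp (-A) ≤ w x) :
    ‖F ζ‖ ≤ M * Real.exp (K * (A + B * J)) := by
  have hc : ContinuousOn F (sphere 0 1) := hF.continuousOn_ball.mono sphere_subset_closedBall
  obtain ⟨S, hS⟩ := (isCompact_sphere (0 : ℂ) 1).exists_bound_of_continuousOn hc
  have hS0 : 0 ≤ S := (norm_nonneg _).trans (hS 1 (by simp))
  set τ := min 1 (M / (S + 1)) with hτ
  have τ0 : 0 < τ := by positivity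
  have τ1 : τ ≤ 1 := min_le_left _ _
  have m0 : ∀ x, 0 < max (w x) τ := fun x => lt_max_of_lt_right τ0
  set v : ℂ → ℝ := fun x => -Real.log (max (w x) τ) with hv
  have hvc : ContinuousOn v (sphere 0 1) :=
    (ContinuousOn.log (hw.sup continuousOn_const) fun x _ => (m0 x).ne').neg
  have v0 : ∀ x, 0 ≤ v x := fun x =>
    neg_nonneg.2 (Real.log_nonpos (m0 x).le (max_le (hw1 x) τ1))
  have h1 := majorant hF (g := fun x => K * v x) (continuousOn_const.mul hvc) hM.le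
    (fun x hx => by
      have e : Real.exp (K * v x) = (max (w x) τ ^ K)⁻¹ := by
        rw [Real.exp_nat_mul, hv, Real.exp_neg, Real.exp_log (m0 x), inv_pow]
      rw [e, ← div_eq_mul_inv, le_div_iff₀ (pow_pos (m0 x) K)]
      rcases le_total (w x) τ with k | k
      · rw [max_eq_right k]
        calc _ ≤ S * (M / (S + 1)) := by
              gcongr
              · exact hS x hx
              · exact (pow_le_of_le_one τ0.le τ1 hK.ne').trans (min_le_right _ _)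
          _ ≤ (S + 1) * (M / (S + 1)) := by gcongr; linarith
          _ = M := by field_simp
      · rw [max_eq_left k]
        exact h x hx) hζ
  refine h1.trans ?_
  gcongr
  have h2 := avg_le hζ (u := fun x => poissonKernel 0 ζ x * (K * v x)) (A := K * A) (B := K * B)
    ((kernel_cont hζ).mul (continuousOn_const.mul hvc)) hvc fun x hx => by
      have a1 := kernel_nonneg hζ hx
      have a2 := v0 x
      have a3 : poissonKernel 0 ζ x * v x ≤ A * poissonKernel 0 ζ x + B * v x := by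
        rcases hAB x hx with k | k
        · nlinarith
        · have : v x ≤ A := by
            have := Real.log_le_log (Real.exp_pos _) (k.trans (le_max_left _ τ))
            rw [Real.log_exp] at this
            simp only [hv]
            linarith
          nlinarith
      have := mul_le_mul_of_nonneg_left a3 (Nat.cast_nonneg (α := ℝ) K)
      linarith
  have h3 := mul_le_mul_of_nonneg_left (hJ τ ⟨τ0, τ1⟩) (show 0 ≤ (K : ℝ) * B by positivity)
  linarith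

end Pool.Agent.P.MP_56bcbf_an.C
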